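import Mathlib
import Pool.Agent.Q10.McCoy

/-!
# A ring that is right and left McCoy but not right Dischinger

Rings are associative and need not have an identity element; the example has one.
-/

namespace Pool.Agent.Results.MP_4d240a_al.McCoyNotDischinger

section Defs

variable {S : Type*} [NonUnitalRing S]

/-- The `n`-th coefficient of the product of two polynomials `f` and `g` over `S` (given as
finitely supported sequences of coefficients) in a central indeterminate. -/
def mulCoeff (f g : ℕ →₀ S) (n : ℕ) : S :=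
  ∑ p ∈ Finset.HasAntidiagonal.antidiagonal n, f p.1 * g p.2

/-- The product of the polynomials `f` and `g` is zero. -/
def MulEqZero (f g : ℕ →₀ S) : Prop := ∀ n, mulCoeff f g n = 0

/-- Right McCoy: nonzero polynomials `f`, `g` with `f g = 0` force a nonzero `s ∈ S`
with `f s = 0`. -/
def RightMcCoy (S : Type*) [NonUnitalRing S] : Prop :=
  ∀ f g : ℕ →₀ S, f ≠ 0 → g ≠ 0 → MulEqZero f g → ∃ s : S, s ≠ 0 ∧ ∀ n, f n * s = 0

/-- Left McCoy: nonzero polynomials `f`, `g` with `f g = 0` force a nonzero `s ∈ S`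
with `s g = 0`. -/
def LeftMcCoy (S : Type*) [NonUnitalRing S] : Prop :=
  ∀ f g : ℕ →₀ S, f ≠ 0 → g ≠ 0 → MulEqZero f g → ∃ s : S, s ≠ 0 ∧ ∀ n, s * g n = 0

/-- `a` is right strongly regular: `a = a² y`. -/
def RightStronglyRegular (a : S) : Prop := ∃ y : S, a = a * a * y

/-- `a` is left strongly regular: `a = y a²`. -/
def LeftStronglyRegular (a : S) : Prop := ∃ y : S, a = y * (a * a)

/-- `S` is right Dischinger: every right strongly regular element is strongly regular, i.e. right
and left strongly regular. -/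
def RightDischinger (S : Type*) [NonUnitalRing S] : Prop :=
  ∀ a : S, RightStronglyRegular a → RightStronglyRegular a ∧ LeftStronglyRegular a

end Defs

open Polynomial in
theorem key {S : Type} [Ring S] (f g : ℕ →₀ S) (hf : f ≠ 0) (hg : g ≠ 0) (h : MulEqZero f g) :
    ∃ F G : S[X], F ≠ 0 ∧ G ≠ 0 ∧ F * G = 0 ∧ (∀ n, F.coeff n = f n) ∧ ∀ n, G.coeff n = g n := by
  have aux : ∀ u : ℕ →₀ S, ∃ U : S[X], ∀ n, U.coeff n = u n := by
    intro u
    refine ⟨∑ i ∈ u.support, C (u i) * X ^ i, fun n => ?_⟩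
    rw [finsetSum_coeff]
    simp only [coeff_C_mul, coeff_X_pow, mul_ite, mul_one, mul_zero]
    rw [Finset.sum_ite_eq]
    split_ifs with hn
    · rfl
    · rw [Finsupp.notMem_support_iff] at hn
      exact hn.symm
  obtain ⟨F, hF⟩ := aux f
  obtain ⟨G, hG⟩ := aux g
  refine ⟨F, G, ?_, ?_, ?_, hF, hG⟩
  · rintro rfl
    apply hf
    ext n
    rw [← hF n]; simp
  · rintro rfl
    apply hg
    ext n
    rw [← hG n]; simp
  · ext1 n
    rw [coeff_mul, coeff_zero, ← h n, mulCoeff]
    refine Finset.sum_congr rfl fun p _ => ?_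
    rw [hF, hG]

/-- There is a ring with identity which is both right McCoy and left McCoy but not right
Dischinger. -/
theorem result : ∃ (S : Type) (_ : Ring S), RightMcCoy S ∧ LeftMcCoy S ∧ ¬ RightDischinger S := by
  refine ⟨Q10.McCoy.TT, inferInstance, ?_, ?_, ?_⟩
  · intro f g hf hg h
    obtain ⟨F, G, hF, hG, hFG, hFc, hGc⟩ := key f g hf hg h
    obtain ⟨⟨s, hs, hs'⟩, -⟩ := Q10.McCoy.mccoy' F G hF hG hFG
    refine ⟨s, hs, fun n => ?_⟩
    have := congrArg (fun p => Polynomial.coeff p n) hs'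
    rw [Polynomial.coeff_mul_C, Polynomial.coeff_zero, hFc] at this
    exact this
  · intro f g hf hg h
    obtain ⟨F, G, hF, hG, hFG, hFc, hGc⟩ := key f g hf hg h
    obtain ⟨-, s, hs, hs'⟩ := Q10.McCoy.mccoy' F G hF hG hFG
    refine ⟨s, hs, fun n => ?_⟩
    have := congrArg (fun p => Polynomial.coeff p n) hs'
    rw [Polynomial.coeff_C_mul, Polynomial.coeff_zero, hGc] at this
    exact this
  · intro hD
    obtain ⟨-, s, hs⟩ := hD Q10.McCoy.a' ⟨Q10.McCoy.y', by rw [← pow_two]; exact Q10.McCoy.rel'⟩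
    exact Q10.McCoy.not_mem_sq' ⟨s, by rw [pow_two]; exact hs⟩

end Pool.Agent.Results.MP_4d240a_al.McCoyNotDischinger
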